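import Pool.Agent.Work.MP_320dc7_lc.Final

set_option autoImplicit false

/-!
# MP_320dc7_lc: a restrained expansion of the real field without any dimension function

There is a function `f : ℝ → ℝ` such that in the structure `(ℝ; +, *, ≤, f)` every countable definable subset of `ℝ` is
finite (so that the structure is restrained, in a very strong sense), but there is no dimension function in the sense of
van den Dries at all, whether or not it agrees with the topological dimension on some class of sets.
-/

namespace Pool.Agent.Results.MP_320dc7_lc.NoDimensionFunction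

open FirstOrder FirstOrder.Language Work.MP_320dc7_lc

/-- `A` is definable with parameters in the structure `K` -/
def Dfn (L : FirstOrder.Language.{0, 0}) {K : Type} [L.Structure K] {ι : Type} (A : Set (ι → K)) : Prop :=
  (Set.univ : Set K).Definable L A

/-- The structure `K` expands the ordered field `K`: addition, multiplication and the order are definable without
parameters -/
structure ExpandsField (L : FirstOrder.Language.{0, 0}) (K : Type) [Field K] [LinearOrder K] [L.Structure K] : Prop where
  add : (∅ : Set K).Definable L {v : Fin 3 → K | v 0 + v 1 = v 2}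
  mul : (∅ : Set K).Definable L {v : Fin 3 → K | v 0 * v 1 = v 2}
  le : (∅ : Set K).Definable L {v : Fin 2 → K | v 0 ≤ v 1}

/-- definably complete: every definable subset of `K` which is neither empty nor unbounded from above has a supremum -/
def DefinablyComplete (L : FirstOrder.Language.{0, 0}) (K : Type) [LinearOrder K] [L.Structure K] : Prop :=
  ∀ X : Set K, Dfn L {v : Fin 1 → K | v 0 ∈ X} → X = ∅ ∨ ¬ BddAbove X ∨ ∃ s : K, IsLUB X s

/-- restrained: definably complete, and the image of a definable discrete set `D` under a definable map `g : D → K` is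
nowhere dense (definable map: the graph is definable) -/
structure Restrained (L : FirstOrder.Language.{0, 0}) (K : Type) [LinearOrder K] [TopologicalSpace K] [L.Structure K] :
    Prop where
  dc : DefinablyComplete L K
  discrete : ∀ (n : ℕ) (D : Set (Fin n → K)) (g : D → K), Dfn L D → DiscreteTopology D →
    Dfn L {v : Fin (n + 1) → K | ∃ h : (fun i : Fin n => v i.castSucc) ∈ D,
      g ⟨fun i : Fin n => v i.castSucc, h⟩ = v (Fin.last n)} → IsNowhereDense (Set.range g)

/-- the fibre of `C` over `x`, a subset of `K = K ^ 1` -/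
def fiber {K : Type} {n : ℕ} (C : Set (Fin (n + 1) → K)) (x : Fin n → K) : Set (Fin 1 → K) :=
  {w | Fin.snoc (α := fun _ => K) x (w 0) ∈ C}

/-- `d` is a dimension function (van den Dries) for the definable subsets of the `K ^ n` (the values on other sets are
irrelevant) -/
structure IsDimensionFunction (L : FirstOrder.Language.{0, 0}) (K : Type) [L.Structure K]
    (d : ∀ n : ℕ, Set (Fin n → K) → WithBot ℕ) : Prop where
  dim1_empty : ∀ (n : ℕ) (A : Set (Fin n → K)), Dfn L A → (d n A = ⊥ ↔ A = ∅)
  dim1_point : ∀ a : Fin 1 → K, d 1 {a} = 0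
  dim1_line : d 1 Set.univ = 1
  dim2 : ∀ (n : ℕ) (A B : Set (Fin n → K)), Dfn L A → Dfn L B → d n (A ∪ B) = max (d n A) (d n B)
  dim3 : ∀ (n : ℕ) (σ : Equiv.Perm (Fin n)) (A : Set (Fin n → K)), Dfn L A →
    d n {x | x ∘ σ ∈ A} = d n A
  dim4_def : ∀ (n : ℕ) (C : Set (Fin (n + 1) → K)), Dfn L C → ∀ i : Fin 2,
    Dfn L {x : Fin n → K | d 1 (fiber C x) = ((i : ℕ) : WithBot ℕ)}
  dim4_dim : ∀ (n : ℕ) (C : Set (Fin (n + 1) → K)), Dfn L C → ∀ i : Fin 2,
    d (n + 1) {z | z ∈ C ∧ d 1 (fiber C fun j : Fin n => z j.castSucc) = ((i : ℕ) : WithBot ℕ)} =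
      d n {x : Fin n → K | d 1 (fiber C x) = ((i : ℕ) : WithBot ℕ)} + ((i : ℕ) : WithBot ℕ)

theorem fiber_eq {n : ℕ} (C : Set (Fin (n + 1) → ℝ)) (x : Fin n → ℝ) : fiber C x = fib C x := by
  ext w
  simp only [fiber, fib, Set.mem_ofPred_eq]
  constructor
  · intro h
    exact ⟨_, h, by funext j; simp, by simp⟩
  · rintro ⟨z, hz, rfl, h2⟩
    rw [← h2]
    convert hz using 1
    exact Fin.snoc_init_self z

/-- **There is `f : ℝ → ℝ` such that the expansion `(ℝ; +, *, ≤, f)` of the real field is restrained (all its countable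
definable subsets of `ℝ` are finite), but has no dimension function.** -/
theorem result : ∃ f : ℝ → ℝ, letI : Lg.Structure ℝ := str f
    ExpandsField Lg ℝ ∧ (∀ X : Set ℝ, Dfn Lg {v : Fin 1 → ℝ | v 0 ∈ X} → X.Countable → X.Finite) ∧
      Restrained Lg ℝ ∧ ¬ ∃ d : ∀ n : ℕ, Set (Fin n → ℝ) → WithBot ℕ, IsDimensionFunction Lg ℝ d := by
  classical
  obtain ⟨f, hf⟩ := exists_generic
  have hf : Gen f := hf
  refine ⟨f, ?_⟩
  let _ : Lg.Structure ℝ := str f
  have key : ∀ {n : ℕ} (R : Rel n), (∅ : Set ℝ).Definable Lg {v : Fin n → ℝ | relMap f R v} := by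
    intro n R
    rw [Set.empty_definable_iff]
    refine ⟨Relations.formula (L := Lg) R (fun i => Term.var i), ?_⟩
    ext v
    rfl
  refine ⟨⟨key Rel.add, key Rel.mul, key Rel.le⟩, ?_, ⟨?_, ?_⟩, ?_⟩
  · intro X hX hc
    exact df_countable_finite hf X hX hc
  · intro X _
    by_cases h1 : X = ∅
    · exact Or.inl h1
    · by_cases h2 : BddAbove X
      · exact Or.inr (Or.inr (Real.exists_isLUB (Set.nonempty_iff_ne_empty.mpr h1) h2))
      · exact Or.inr (Or.inl h2)
  · intro n D g _ hdis hg
    let G : (Fin n → ℝ) → ℝ := fun x => if h : x ∈ D then g ⟨x, h⟩ else 0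
    have h1 : Set.range g = G '' D := by
      ext y
      constructor
      · rintro ⟨⟨x, hx⟩, rfl⟩
        exact ⟨x, hx, by simp only [G, dif_pos hx]⟩
      · rintro ⟨x, hx, rfl⟩
        exact ⟨⟨x, hx⟩, by simp only [G, dif_pos hx]⟩
    rw [h1]
    refine restrained hf n D G hdis ?_
    have h2 : {v : Fin (n + 1) → ℝ | (fun i : Fin n => v (Fin.castSucc i)) ∈ D ∧
        G (fun i : Fin n => v (Fin.castSucc i)) = v (Fin.last n)} =
        {v : Fin (n + 1) → ℝ | ∃ h : (fun i : Fin n => v i.castSucc) ∈ D,
          g ⟨fun i : Fin n => v i.castSucc, h⟩ = v (Fin.last n)} := by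
      ext v
      simp only [Set.mem_ofPred_eq]
      constructor
      · rintro ⟨h3, h4⟩
        refine ⟨h3, ?_⟩
        simpa only [G, dif_pos h3] using h4
      · rintro ⟨h3, h4⟩
        refine ⟨h3, ?_⟩
        simpa only [G, dif_pos h3] using h4
    rw [h2]
    exact hg
  · rintro ⟨d, hd⟩
    refine no_dim (d := d) (gen_sum hf) ⟨hd.dim1_empty, fun a => hd.dim1_point _, hd.dim1_line, hd.dim2,
      hd.dim3, ?_⟩
    intro n C hC i hi
    have h1 := hd.dim4_def n C hC ⟨i, by omega⟩
    have h2 := hd.dim4_dim n C hC ⟨i, by omega⟩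
    simp only [fiber_eq] at h1 h2
    exact ⟨h1, h2⟩

end Pool.Agent.Results.MP_320dc7_lc.NoDimensionFunction
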